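import Pool.Agent.DG2.BASJ
import Pool.Agent.DG2.BDEN
import Pool.Agent.DG2.BSZ
import Pool.Agent.DG2.CDK
import Pool.Agent.DG2.CVP
import Pool.Agent.DG2.DSMJ
import Pool.Agent.DG2.ELC
import Pool.Agent.DG2.EXCC
import Pool.Agent.DG2.FINC
import Pool.Agent.DG2.FULLJ
import Pool.Agent.DG2.GOOD
import Pool.Agent.DG2.GSS
import Pool.Agent.DG2.HDY
import Pool.Agent.DG2.HERM
import Pool.Agent.DG2.HOMQ
import Pool.Agent.DG2.INDX
import Pool.Agent.DG2.LOCS
import Pool.Agent.DG2.MAINC
import Pool.Agent.DG2.NFC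
import Pool.Agent.DG2.NMQ
import Pool.Agent.DG2.RED
import Pool.Agent.DG2.REFX
import Pool.Agent.DG2.SERJ
import Pool.Agent.DG2.SQR
import Pool.Agent.DG2.TFC
import Pool.Agent.DG2.TPC
import Pool.Agent.DG2.TRV
import Pool.Agent.DG2.UNQ
import Pool.Agent.DG2.ZSM
import Pool.Agent.GPJ.Final
import Pool.Agent.HGP.CELLB
import Pool.Agent.DGP.Assembly

set_option autoImplicit false

/-!
# Assembly of the modules of DG2
-/

namespace Pool.Agent.DRD

open Pool.Agent.DG2

theorem locS : Stmt_LocS := LocS_proof herm_proof sqr_proof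

theorem good : Stmt_Good := good_proof (Red_proof cdk_proof) locS unq_proof gss_proof cdk_proof

theorem basJ : Stmt_BasJ := basj_proof (bden_proof good trv_proof) bsz_proof hdy_proof tfc_proof
  Pool.Agent.DGP.Lcm_proof

theorem fullJ : Stmt_FullJ := fullj_proof basJ dsmj_proof

theorem refX : Stmt_RefX := refx_proof nmq_proof

theorem serJ : Stmt_SerJ := serj_proof tpc_proof

theorem zSm : Stmt_ZSm := zsm_proof refX serJ nmq_proof

theorem indX : Stmt_IndX := indx_proof Pool.Agent.DGP.aa Pool.Agent.DGP.Val_proof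
  Pool.Agent.DGP.Word_proof tfc_proof fullJ refX serJ zSm nmq_proof tpc_proof homq_proof
  Pool.Agent.GPJ.Final.fibJ Pool.Agent.HGP.cellb_proof

theorem cvP : Stmt_CvP := cvp_proof tpc_proof

theorem mainC : Stmt_MainC := mainc_proof indX (excc_proof homq_proof) elc_proof serJ zSm nmq_proof

theorem finC : Stmt_FinC := finc_proof mainC nfc_proof refX cvP

end Pool.Agent.DRD
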