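import Pool.Agent.DRB.Aut1
import Pool.Agent.DRB.AUT2
import Pool.Agent.DRB.Descq

set_option autoImplicit false

/-!
# Descent of polynomials vanishing on a set which is stable under the automorphisms over `L`
-/

open scoped BigOperators

namespace Pool.Agent.DRD

open Pool.Agent.DRB (Stmt_Aut2 aut2_proof GalA)

/-- The automorphisms of `ℂ` over `L`. -/
def GalL (L : IntermediateField ℚ ℂ) : Set (ℂ ≃ₐ[ℚ] ℂ) := {τ | ∀ a ∈ L, τ a = a}

lemma GalL_symm {L : IntermediateField ℚ ℂ} {τ : ℂ ≃ₐ[ℚ] ℂ} (h : τ ∈ GalL L) :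
    τ.symm ∈ GalL L := by
  intro a ha
  rw [AlgEquiv.symm_apply_eq]
  exact (h a ha).symm

/-- The fixed field of the automorphisms over `L` is `L`. -/
theorem fixL (L : IntermediateField ℚ ℂ) (hL : ∀ a ∈ L, IsAlgebraic ℚ a) (z : ℂ)
    (hz : ∀ τ ∈ GalL L, τ z = z) : z ∈ L := by
  have hGA : ∀ τ ∈ GalA, τ ∈ GalL L := fun τ hτ a ha => hτ a (hL a ha)
  have halg : IsAlgebraic ℚ z := by
    refine aut2_proof z ?_
    refine (Set.countable_singleton z).mono ?_
    rintro w ⟨τ, hτ, rfl⟩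
    exact hz τ (hGA τ hτ)
  by_contra hzL
  let F := algebraicClosure ℚ ℂ
  have hzF : z ∈ F := mem_algebraicClosure_iff.2 halg
  have hcl : IsAlgClosure ℚ F := algebraicClosure.isAlgClosure ℚ ℂ
  have hG : IsGalois ℚ F := IsAlgClosure.isGalois ℚ F
  let L' : IntermediateField ℚ F := L.comap F.val
  have h1 : (⟨z, hzF⟩ : F) ∉ L' := fun h => hzL h
  rw [← InfiniteGalois.fixedField_fixingSubgroup L', IntermediateField.mem_fixedField_iff] at h1
  push Not at h1
  obtain ⟨τ, hτ, hτz⟩ := h1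
  rw [IntermediateField.mem_fixingSubgroup_iff] at hτ
  obtain ⟨ι, v, hv⟩ := exists_isTranscendenceBasis' F ℂ
  obtain ⟨σ, hσ, -⟩ := Pool.Agent.DRB.Aut1X.ext_aut v hv τ.toRingEquiv (Equiv.refl ι)
  obtain ⟨σ', hσ'⟩ := Pool.Agent.DRB.Aut1X.to_alg σ
  have hσL : σ' ∈ GalL L := by
    intro a ha
    have haF : a ∈ F := mem_algebraicClosure_iff.2 (hL a ha)
    rw [hσ']
    have h3 := hσ ⟨a, haF⟩
    have h4 := hτ ⟨a, haF⟩ ha
    refine h3.trans ?_
    change ((τ ⟨a, haF⟩ : F) : ℂ) = a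
    rw [h4]
  apply hτz
  apply Subtype.ext
  have h3 := hσ ⟨z, hzF⟩
  have h5 := hz σ' hσL
  rw [hσ'] at h5
  exact h3.symm.trans h5

section poly

variable {σ : Type} [Fintype σ]

/-- The monomials of degree at most `D`. -/
abbrev Mon (σ : Type) [Fintype σ] (D : ℕ) : Type := {m : σ → Fin (D + 1) // ∑ i, (m i : ℕ) ≤ D}

noncomputable instance (D : ℕ) : Fintype (Mon σ D) := by
  classical
  unfold Mon
  infer_instance

/-- The exponent vector. -/
noncomputable def ex (D : ℕ) (m : Mon σ D) : σ →₀ ℕ :=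
  Finsupp.equivFunOnFinite.symm (fun i => (m.1 i : ℕ))

lemma ex_apply (D : ℕ) (m : Mon σ D) (i : σ) : ex D m i = (m.1 i : ℕ) := rfl

lemma ex_inj (D : ℕ) : Function.Injective (ex (σ := σ) D) := by
  intro m m' h
  apply Subtype.ext
  funext i
  apply Fin.ext
  have := DFunLike.congr_fun h i
  simpa [ex_apply] using this

lemma ex_surj (D : ℕ) (d : σ →₀ ℕ) (hd : ∑ i, d i ≤ D) : ∃ m : Mon σ D, ex D m = d := by
  have h1 : ∀ i, d i < D + 1 := fun i =>
    Nat.lt_succ_of_le ((Finset.single_le_sum (f := fun i => d i) (fun _ _ => Nat.zero_le _)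
      (Finset.mem_univ i)).trans hd)
  refine ⟨⟨fun i => ⟨d i, h1 i⟩, hd⟩, ?_⟩
  ext i
  rfl

/-- Evaluation in terms of the coefficient vector. -/
lemma eval_vec {K : Type} [Field K] [Algebra K ℂ] (D : ℕ) (P : MvPolynomial σ K)
    (hP : P.totalDegree ≤ D) (x : σ → ℂ) :
    MvPolynomial.aeval x P =
      ∑ m : Mon σ D, algebraMap K ℂ (P.coeff (ex D m)) * ∏ i, x i ^ (m.1 i : ℕ) := by
  classical
  rw [MvPolynomial.aeval_def, MvPolynomial.eval₂_eq']
  have h1 : ∑ m : Mon σ D, algebraMap K ℂ (P.coeff (ex D m)) * ∏ i, x i ^ (m.1 i : ℕ) =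
      ∑ d ∈ (Finset.univ : Finset (Mon σ D)).map ⟨ex D, ex_inj D⟩,
        algebraMap K ℂ (P.coeff d) * ∏ i, x i ^ d i := by
    rw [Finset.sum_map]
    rfl
  rw [h1]
  apply Finset.sum_subset
  · intro d hd
    rw [Finset.mem_map]
    have h2 : ∑ i, d i ≤ D := by
      have h3 := MvPolynomial.le_totalDegree hd
      rw [Finsupp.sum_fintype _ _ (fun _ => rfl)] at h3
      exact h3.trans hP
    obtain ⟨m, hm⟩ := ex_surj D d h2
    exact ⟨m, Finset.mem_univ _, hm⟩
  · intro d _ hd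
    rw [MvPolynomial.notMem_support_iff] at hd
    rw [hd, map_zero, zero_mul]

/-- The polynomial with given coefficients. -/
noncomputable def mk {K : Type} [Field K] (D : ℕ) (v : Mon σ D → K) : MvPolynomial σ K :=
  ∑ m, MvPolynomial.monomial (ex D m) (v m)

lemma mk_deg {K : Type} [Field K] (D : ℕ) (v : Mon σ D → K) : (mk D v).totalDegree ≤ D := by
  refine MvPolynomial.totalDegree_finsetSum_le fun m _ => ?_
  refine (MvPolynomial.totalDegree_monomial_le _ _).trans ?_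
  rw [Finsupp.sum_fintype _ _ (fun _ => rfl)]
  exact m.2

lemma mk_eval {K : Type} [Field K] [Algebra K ℂ] (D : ℕ) (v : Mon σ D → K) (x : σ → ℂ) :
    MvPolynomial.aeval x (mk D v) =
      ∑ m : Mon σ D, algebraMap K ℂ (v m) * ∏ i, x i ^ (m.1 i : ℕ) := by
  unfold mk
  rw [map_sum]
  refine Finset.sum_congr rfl fun m _ => ?_
  rw [MvPolynomial.aeval_monomial]
  congr 1
  rw [Finsupp.prod_fintype _ _ (fun _ => pow_zero _)]
  rfl

/-- Descent. `S` is stable under the automorphisms over `L` and contains `c`; the polynomials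
over `L` of degree at most `D` which vanish at `c` vanish on `T`. Then the polynomials over `ℂ` of
degree at most `D` which vanish on `S` vanish on `T`. -/
theorem descL (L : IntermediateField ℚ ℂ) (hL : ∀ a ∈ L, IsAlgebraic ℚ a) (S T : Set (σ → ℂ))
    (hS : ∀ τ ∈ GalL L, ∀ x ∈ S, (fun i => τ (x i)) ∈ S) (c : σ → ℂ) (hc : c ∈ S) (D : ℕ)
    (hT : ∀ Q : MvPolynomial σ L, Q.totalDegree ≤ D → MvPolynomial.aeval c Q = (0 : ℂ) →
      ∀ x ∈ T, MvPolynomial.aeval x Q = (0 : ℂ)) (P : MvPolynomial σ ℂ)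
    (hP : P.totalDegree ≤ D) (hPS : ∀ x ∈ S, MvPolynomial.eval x P = 0) :
    ∀ x ∈ T, MvPolynomial.eval x P = 0 := by
  classical
  let ev : (σ → ℂ) → (Mon σ D → ℂ) →ₗ[ℂ] ℂ := fun x =>
    { toFun := fun v => ∑ m : Mon σ D, v m * ∏ i, x i ^ (m.1 i : ℕ)
      map_add' := fun v w => by simp [add_mul, Finset.sum_add_distrib]
      map_smul' := fun a v => by simp [Finset.mul_sum, mul_assoc] }
  have hev : ∀ x v, ev x v = ∑ m : Mon σ D, v m * ∏ i, x i ^ (m.1 i : ℕ) := fun _ _ => rfl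
  let W : Submodule ℂ (Mon σ D → ℂ) := ⨅ x ∈ S, LinearMap.ker (ev x)
  have hW : ∀ v, v ∈ W ↔ ∀ x ∈ S, ev x v = 0 := by
    intro v
    simp only [W, Submodule.mem_iInf, LinearMap.mem_ker]
  have hstab : ∀ τ ∈ GalL L, ∀ v ∈ W, (fun k => τ (v k)) ∈ W := by
    intro τ hτ v hv
    rw [hW] at hv ⊢
    intro x hx
    have h1 := hv _ (hS τ.symm (GalL_symm hτ) x hx)
    rw [hev] at h1 ⊢
    have h2 := congrArg τ h1
    rw [map_sum, map_zero] at h2
    rw [← h2]
    refine Finset.sum_congr rfl fun m _ => ?_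
    rw [map_mul, map_prod]
    congr 1
    refine Finset.prod_congr rfl fun i _ => ?_
    rw [map_pow, AlgEquiv.apply_symm_apply]
  have hdesc := Pool.Agent.DRB.DESCQX.descent (GalL L) (fun z => z ∈ L) (fixL L hL) W hstab
  have hvan : ∀ v ∈ W, ∀ x ∈ T, ev x v = 0 := by
    intro v hv x hx
    have h1 : Submodule.span ℂ {v | v ∈ W ∧ ∀ k, v k ∈ L} ≤ LinearMap.ker (ev x) := by
      rw [Submodule.span_le]
      rintro w ⟨hw, hwL⟩
      change ev x w = 0
      have h2 := hT (mk D fun m => (⟨w m, hwL m⟩ : L)) (mk_deg _ _) (by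
        rw [mk_eval]
        exact (hW w).1 hw c hc) x hx
      rw [mk_eval] at h2
      exact h2
    exact h1 (hdesc hv)
  intro x hx
  have h1 : (fun m : Mon σ D => P.coeff (ex D m)) ∈ W := by
    rw [hW]
    intro y hy
    have h2 := eval_vec D P hP y
    rw [MvPolynomial.aeval_def] at h2
    rw [hev]
    have h3 : MvPolynomial.eval y P = MvPolynomial.eval₂ (algebraMap ℂ ℂ) y P := rfl
    have h4 := hPS y hy
    rw [h3, h2] at h4
    exact h4
  have h2 := hvan _ h1 x hx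
  rw [hev] at h2
  have h3 := eval_vec D P hP x
  have h4 : MvPolynomial.eval x P = MvPolynomial.aeval x P := rfl
  rw [h4, h3]
  exact h2

end poly

end Pool.Agent.DRD
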