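import Pool.Agent.UBD.Stmts
import Pool.Agent.DRD.Desc

set_option autoImplicit false

/-!
# No proper subtorsor over `L`, from relations of bounded degree and the uniform bound
-/

open scoped BigOperators Topology

namespace Pool.Agent.DRD

open Pool.Agent.HGP (Ix Simil)
open Pool.Agent.UBD (Pt Crd Pol ev InG GrpS Dns Inf1 Stmt_UB)

noncomputable section

variable {r : ℕ} {g w : Fin r → ℕ}

lemma simil_mul {G : ℕ} {a b : ℂ} {x y : Matrix (Ix G) (Ix G) ℂ} (hx : Simil a x)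
    (hy : Simil b y) : Simil (a * b) (x * y) := by
  unfold Simil at *
  rw [Matrix.transpose_mul]
  calc y.transpose * x.transpose * Matrix.J (Fin G) ℂ * (x * y)
      = y.transpose * (x.transpose * Matrix.J (Fin G) ℂ * x) * y := by
        simp only [Matrix.mul_assoc]
    _ = a • (y.transpose * Matrix.J (Fin G) ℂ * y) := by
        rw [hx, Matrix.mul_smul, Matrix.smul_mul]
    _ = _ := by rw [hy, smul_smul]

lemma simil_one (G : ℕ) : Simil (1 : ℂ) (1 : Matrix (Ix G) (Ix G) ℂ) := by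
  unfold Simil
  simp

lemma det_ne {G : ℕ} {mu : ℂ} {h : Matrix (Ix G) (Ix G) ℂ} (hmu : mu ≠ 0)
    (hh : Simil mu h) : h.det ≠ 0 := by
  intro h0
  have h1 := congrArg Matrix.det hh
  rw [Matrix.det_mul, Matrix.det_mul, h0, mul_zero, Matrix.det_smul] at h1
  have h2 : (Matrix.J (Fin G) ℂ).det ≠ 0 := (Matrix.isUnit_det_J (Fin G) ℂ).ne_zero
  exact mul_ne_zero (pow_ne_zero _ hmu) h2 h1.symm

lemma simil_inv {G : ℕ} {a : ℂ} {x : Matrix (Ix G) (Ix G) ℂ} (ha : a ≠ 0) (hx : Simil a x) :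
    Simil a⁻¹ x⁻¹ := by
  have hd : IsUnit x.det := isUnit_iff_ne_zero.2 (det_ne ha hx)
  have h1 : x * x⁻¹ = 1 := Matrix.mul_nonsing_inv _ hd
  unfold Simil at *
  have h2 : x⁻¹.transpose * (x.transpose * Matrix.J (Fin G) ℂ * x) * x⁻¹ =
      (x * x⁻¹).transpose * Matrix.J (Fin G) ℂ * (x * x⁻¹) := by
    rw [Matrix.transpose_mul]
    simp only [Matrix.mul_assoc]
  rw [hx, h1, Matrix.transpose_one, Matrix.one_mul, Matrix.mul_one, Matrix.mul_smul,
    Matrix.smul_mul] at h2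
  calc x⁻¹.transpose * Matrix.J (Fin G) ℂ * x⁻¹
      = a⁻¹ • (a • (x⁻¹.transpose * Matrix.J (Fin G) ℂ * x⁻¹)) := by
        rw [smul_smul, inv_mul_cancel₀ ha, one_smul]
    _ = a⁻¹ • Matrix.J (Fin G) ℂ := by rw [h2]

/-- Two points of the torsor differ by an element of the group. -/
lemma simil_div {G : ℕ} {a b : ℂ} {A x y : Matrix (Ix G) (Ix G) ℂ} (ha : a ≠ 0)
    (hd : x.det ≠ 0) (hx : x.transpose * Matrix.J (Fin G) ℂ * x = a • A)
    (hy : y.transpose * Matrix.J (Fin G) ℂ * y = b • A) : Simil (b / a) (y * x⁻¹) := by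
  have h1 : x * x⁻¹ = 1 := Matrix.mul_nonsing_inv _ (isUnit_iff_ne_zero.2 hd)
  have hA : x⁻¹.transpose * A * x⁻¹ = a⁻¹ • Matrix.J (Fin G) ℂ := by
    have h2 : x⁻¹.transpose * (x.transpose * Matrix.J (Fin G) ℂ * x) * x⁻¹ =
        (x * x⁻¹).transpose * Matrix.J (Fin G) ℂ * (x * x⁻¹) := by
      rw [Matrix.transpose_mul]
      simp only [Matrix.mul_assoc]
    rw [hx, h1, Matrix.transpose_one, Matrix.one_mul, Matrix.mul_one, Matrix.mul_smul,
      Matrix.smul_mul] at h2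
    rw [← h2, smul_smul, inv_mul_cancel₀ ha, one_smul]
  unfold Simil
  rw [Matrix.transpose_mul]
  calc x⁻¹.transpose * y.transpose * Matrix.J (Fin G) ℂ * (y * x⁻¹)
      = x⁻¹.transpose * (y.transpose * Matrix.J (Fin G) ℂ * y) * x⁻¹ := by
        simp only [Matrix.mul_assoc]
    _ = b • (x⁻¹.transpose * A * x⁻¹) := by
        rw [hy, Matrix.mul_smul, Matrix.smul_mul]
    _ = _ := by rw [hA, smul_smul]; rfl

/-- The inverse of a point. -/
def pinv (x : Pt g) : Pt g := (x.1⁻¹, fun i => (x.2 i)⁻¹)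

lemma mul_pinv {x : Pt g} (h1 : x.1 ≠ 0) (h2 : ∀ i, (x.2 i).det ≠ 0) : x * pinv x = 1 := by
  apply Prod.ext
  · exact mul_inv_cancel₀ h1
  · funext i
    exact Matrix.mul_nonsing_inv _ (isUnit_iff_ne_zero.2 (h2 i))

lemma pinv_mul {x : Pt g} (h1 : x.1 ≠ 0) (h2 : ∀ i, (x.2 i).det ≠ 0) : pinv x * x = 1 := by
  apply Prod.ext
  · exact inv_mul_cancel₀ h1
  · funext i
    exact Matrix.nonsing_inv_mul _ (isUnit_iff_ne_zero.2 (h2 i))

lemma InG.one : InG w (1 : Pt g) := ⟨one_ne_zero, fun i => by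
  simpa using simil_one (g i)⟩

lemma InG.mul {a b : Pt g} (ha : InG w a) (hb : InG w b) : InG w (a * b) :=
  ⟨mul_ne_zero ha.1 hb.1, fun i => by
    have h := simil_mul (ha.2 i) (hb.2 i)
    rw [← mul_pow] at h
    exact h⟩

lemma InG.det {a : Pt g} (ha : InG w a) (i : Fin r) : (a.2 i).det ≠ 0 :=
  det_ne (pow_ne_zero _ ha.1) (ha.2 i)

lemma InG.pinv {a : Pt g} (ha : InG w a) : InG w (pinv a) :=
  ⟨inv_ne_zero ha.1, fun i => by
    have h := simil_inv (pow_ne_zero _ ha.1) (ha.2 i)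
    rw [← inv_pow] at h
    exact h⟩

/-- Right multiplication as a substitution, on the coordinates. -/
def sX (c : Pt g) : Crd g → Pol g
  | none => MvPolynomial.C c.1 * MvPolynomial.X none
  | some p => ∑ l, MvPolynomial.C (c.2 p.1 l p.2.2) * MvPolynomial.X (some ⟨p.1, (p.2.1, l)⟩)

/-- Right multiplication as a substitution. -/
def subR (c : Pt g) (P : Pol g) : Pol g := MvPolynomial.bind₁ (sX c) P

lemma eval_sX (c a : Pt g) (o : Crd g) :
    MvPolynomial.eval (HGP.tpt a.1 a.2) (sX c o) = HGP.tpt (a * c).1 (a * c).2 o := by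
  cases o with
  | none =>
    rw [sX, map_mul, MvPolynomial.eval_C, MvPolynomial.eval_X, mul_comm]
    rfl
  | some p =>
    have h : HGP.tpt (a * c).1 (a * c).2 (some p) =
        ∑ l, a.2 p.1 p.2.1 l * c.2 p.1 l p.2.2 := by
      change (a.2 p.1 * c.2 p.1) p.2.1 p.2.2 = _
      rw [Matrix.mul_apply]
    rw [h, sX, map_sum]
    refine Finset.sum_congr rfl fun l _ => ?_
    rw [map_mul, MvPolynomial.eval_C, MvPolynomial.eval_X, mul_comm]
    rfl

lemma ev_subR (c : Pt g) (P : Pol g) (a : Pt g) : ev (subR c P) a = ev P (a * c) := by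
  unfold ev subR
  change MvPolynomial.eval₂Hom (RingHom.id ℂ) (HGP.tpt a.1 a.2) (MvPolynomial.bind₁ _ P) = _
  rw [MvPolynomial.eval₂Hom_bind₁]
  exact congrArg (fun f => MvPolynomial.eval f P) (funext (eval_sX c a))

lemma deg_sX (c : Pt g) (o : Crd g) : (sX c o).totalDegree ≤ 1 := by
  cases o with
  | none =>
    rw [sX]
    refine (MvPolynomial.totalDegree_mul _ _).trans ?_
    rw [MvPolynomial.totalDegree_C, MvPolynomial.totalDegree_X]
  | some p =>
    rw [sX]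
    refine MvPolynomial.totalDegree_finsetSum_le fun l _ => ?_
    refine (MvPolynomial.totalDegree_mul _ _).trans ?_
    rw [MvPolynomial.totalDegree_C, MvPolynomial.totalDegree_X]

lemma deg_subR (c : Pt g) (P : Pol g) (D : ℕ) (hP : P.totalDegree ≤ D) :
    (subR c P).totalDegree ≤ D := by
  unfold subR
  rw [MvPolynomial.as_sum P, map_sum]
  refine MvPolynomial.totalDegree_finsetSum_le fun d hd => ?_
  rw [MvPolynomial.bind₁_monomial]
  refine (MvPolynomial.totalDegree_mul _ _).trans ?_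
  rw [MvPolynomial.totalDegree_C, zero_add]
  refine (MvPolynomial.totalDegree_finsetProd _ _).trans ?_
  have h1 : ∑ o ∈ d.support, (sX c o ^ d o).totalDegree ≤ ∑ o ∈ d.support, d o := by
    refine Finset.sum_le_sum fun o _ => ?_
    refine (MvPolynomial.totalDegree_pow _ _).trans ?_
    exact (Nat.mul_le_mul_left _ (deg_sX c o)).trans (le_of_eq (mul_one _))
  exact h1.trans ((MvPolynomial.le_totalDegree hd).trans hP)

/-- No proper subtorsor over `L`. -/
theorem torsor (D₀ : ℕ) (hUB : ∀ H : Set (Pt g), GrpS w H → Inf1 H → Dns D₀ w H →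
      ∀ a, InG w a → a ∈ H)
    (L : IntermediateField ℚ ℂ) (hL : ∀ a ∈ L, IsAlgebraic ℚ a) (c : Pt g)
    (hc1 : Transcendental ℚ c.1) (hdet : ∀ i, (c.2 i).det ≠ 0)
    (A : ∀ i, Matrix (Ix (g i)) (Ix (g i)) ℚ)
    (hA : ∀ i, (c.2 i).transpose * Matrix.J (Fin (g i)) ℂ * c.2 i =
      (c.1 ^ w i) • (A i).map (fun q : ℚ => (q : ℂ)))
    (hrel : ∀ P : MvPolynomial (Crd g) L, P.totalDegree ≤ D₀ →
      MvPolynomial.aeval (HGP.tpt c.1 c.2) P = (0 : ℂ) →
      ∀ a : Pt g, InG w a → MvPolynomial.aeval (HGP.tpt (a * c).1 (a * c).2) P = (0 : ℂ))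
    (S : Set (Pt g)) (E : Set (MvPolynomial (Crd g) L))
    (hSE : ∀ x : Pt g, x.1 ≠ 0 → (∀ i, (x.2 i).det ≠ 0) →
      (x ∈ S ↔ ∀ e ∈ E, MvPolynomial.aeval (HGP.tpt x.1 x.2) e = (0 : ℂ)))
    (hcS : c ∈ S) (hcos : ∀ a b : Pt g, InG w a → InG w b → a * c ∈ S → b * c ∈ S →
      a * pinv b * c ∈ S ∧ a * b * c ∈ S) :
    ∀ a, InG w a → a * c ∈ S := by
  classical
  have hc0 : c.1 ≠ 0 := by
    intro h0
    rw [h0] at hc1
    exact hc1 isAlgebraic_zero
  let H : Set (Pt g) := {a | InG w a ∧ a * c ∈ S}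
  -- units
  have hun : ∀ a : Pt g, InG w a → (a * c).1 ≠ 0 ∧ ∀ i, ((a * c).2 i).det ≠ 0 := by
    intro a ha
    refine ⟨mul_ne_zero ha.1 hc0, fun i => ?_⟩
    change (a.2 i * c.2 i).det ≠ 0
    rw [Matrix.det_mul]
    exact mul_ne_zero (InG.det ha i) (hdet i)
  -- the torsor `G c` meets `S`
  let S' : Set (Crd g → ℂ) := {x | ∃ y : Pt g, x = HGP.tpt y.1 y.2 ∧ y ∈ S ∧ y.1 ≠ 0 ∧
    ∀ i, (y.2 i).det ≠ 0 ∧ (y.2 i).transpose * Matrix.J (Fin (g i)) ℂ * y.2 i =
      (y.1 ^ w i) • (A i).map (fun q : ℚ => (q : ℂ))}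
  have hS'H : ∀ y : Pt g, y ∈ S → y.1 ≠ 0 →
      (∀ i, (y.2 i).det ≠ 0 ∧ (y.2 i).transpose * Matrix.J (Fin (g i)) ℂ * y.2 i =
      (y.1 ^ w i) • (A i).map (fun q : ℚ => (q : ℂ))) → y * pinv c ∈ H := by
    intro y hy h1 h2
    refine ⟨⟨mul_ne_zero h1 (inv_ne_zero hc0), fun i => ?_⟩, ?_⟩
    · have h3 := simil_div (pow_ne_zero (w i) hc0) (hdet i) (hA i) (h2 i).2
      change Simil ((y.1 * c.1⁻¹) ^ w i) (y.2 i * (c.2 i)⁻¹)
      rw [mul_pow, inv_pow, ← div_eq_mul_inv]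
      exact h3
    · rw [mul_assoc, pinv_mul hc0 hdet, mul_one]
      exact hy
  have hcS' : HGP.tpt c.1 c.2 ∈ S' := ⟨c, rfl, hcS, hc0, fun i => ⟨hdet i, hA i⟩⟩
  -- stability
  have hst : ∀ τ ∈ GalL L, ∀ x ∈ S', (fun j => τ (x j)) ∈ S' := by
    rintro τ hτ x ⟨y, rfl, hyS, hy0, hy⟩
    have hz : (fun j => τ (HGP.tpt y.1 y.2 j)) =
        HGP.tpt (g := g) (τ y.1) (fun i => (y.2 i).map τ) := by
      funext o
      cases o with
      | none => rfl
      | some p => rfl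
    have h0 : τ y.1 ≠ 0 := fun h => hy0 ((map_eq_zero τ).1 h)
    have hd : ∀ i, ((y.2 i).map τ).det ≠ 0 := by
      intro i h
      have h1 : ((y.2 i).map τ).det = τ (y.2 i).det := by
        have := (RingHom.map_det (τ : ℂ →+* ℂ) (y.2 i)).symm
        exact this
      rw [h1] at h
      exact (hy i).1 ((map_eq_zero τ).1 h)
    refine ⟨(τ y.1, fun i => (y.2 i).map τ), hz, ?_, h0, fun i => ⟨hd i, ?_⟩⟩
    · rw [hSE _ h0 hd]
      intro e he
      have h1 := (hSE y hy0 (fun i => (hy i).1)).1 hyS e he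
      have h2 := congrArg τ h1
      rw [map_zero] at h2
      change MvPolynomial.aeval (HGP.tpt (g := g) (τ y.1) (fun i => (y.2 i).map τ)) e = (0 : ℂ)
      rw [← hz, ← h2, MvPolynomial.aeval_def, MvPolynomial.aeval_def, MvPolynomial.eval₂_eq',
        MvPolynomial.eval₂_eq', map_sum]
      refine Finset.sum_congr rfl fun d _ => ?_
      rw [map_mul, map_prod]
      congr 1
      · exact (hτ _ (e.coeff d).2).symm
      · refine Finset.prod_congr rfl fun j _ => ?_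
        rw [map_pow]
    · have h1 := congrArg (fun M : Matrix (Ix (g i)) (Ix (g i)) ℂ => M.map (τ : ℂ →+* ℂ))
        (hy i).2
      simp only [Matrix.map_mul] at h1
      have hJm : (Matrix.J (Fin (g i)) ℂ).map (τ : ℂ →+* ℂ) = Matrix.J (Fin (g i)) ℂ := by
        ext u v
        rcases u with u | u <;> rcases v with v | v <;>
          simp [Matrix.J, Matrix.one_apply, apply_ite]
      rw [hJm] at h1
      have h2 : ((y.1 ^ w i) • (A i).map (fun q : ℚ => (q : ℂ))).map (τ : ℂ →+* ℂ) =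
          ((τ y.1) ^ w i) • (A i).map (fun q : ℚ => (q : ℂ)) := by
        ext u v
        simp
      rw [h2] at h1
      exact h1
  have hG : GrpS w H := by
    refine ⟨fun a ha => ha.1, ⟨InG.one, by rw [one_mul]; exact hcS⟩, ?_, ?_, ?_⟩
    · rintro a ⟨ha, haS⟩ b ⟨hb, hbS⟩
      exact ⟨InG.mul ha hb, (hcos a b ha hb haS hbS).2⟩
    · rintro a ⟨ha, haS⟩
      refine ⟨pinv a, ⟨InG.pinv ha, ?_⟩, mul_pinv ha.1 (InG.det ha), pinv_mul ha.1 (InG.det ha)⟩
      have h1 := (hcos 1 a InG.one ha (by rw [one_mul]; exact hcS) haS).1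
      rw [one_mul] at h1
      exact h1
    · intro a ha hP
      refine ⟨ha, ?_⟩
      rw [hSE _ (hun a ha).1 (hun a ha).2]
      intro e he
      have h1 := hP (subR c (MvPolynomial.map (algebraMap L ℂ) e)) (by
        intro h hh
        rw [ev_subR]
        have h2 := (hSE _ (hun h hh.1).1 (hun h hh.1).2).1 hh.2 e he
        unfold ev
        rw [MvPolynomial.eval_map]
        exact h2)
      rw [ev_subR] at h1
      unfold ev at h1
      rw [MvPolynomial.eval_map] at h1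
      exact h1
  have hinf : Inf1 H := by
    intro hfin
    have h1 : {z : ℂ | ∃ x ∈ S', x none = z}.Finite := by
      refine (hfin.image (fun z => z * c.1)).subset ?_
      rintro z ⟨x, ⟨y, rfl, hyS, hy0, hy⟩, rfl⟩
      refine ⟨(y * pinv c).1, ⟨_, hS'H y hyS hy0 hy, rfl⟩, ?_⟩
      change y.1 * c.1⁻¹ * c.1 = y.1
      rw [mul_assoc, inv_mul_cancel₀ hc0, mul_one]
    apply hc1
    refine Pool.Agent.DRB.aut2_proof _ ?_
    refine (h1.subset ?_).countable
    rintro z ⟨τ, hτ, rfl⟩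
    exact ⟨_, hst τ (fun a ha => hτ a (hL a ha)) _ hcS', rfl⟩
  have hdns : Dns D₀ w H := by
    intro P hP hPH a ha
    have h1 : ∀ x ∈ S', MvPolynomial.eval x (subR (pinv c) P) = 0 := by
      rintro x ⟨y, rfl, hyS, hy0, hy⟩
      have h2 := ev_subR (pinv c) P y
      unfold ev at h2
      rw [h2]
      exact hPH _ (hS'H y hyS hy0 hy)
    have h2 := descL L hL S' {x | ∃ a : Pt g, InG w a ∧ x = HGP.tpt (a * c).1 (a * c).2} hst
      (HGP.tpt c.1 c.2) hcS' D₀ (by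
        rintro Q hQ hQc x ⟨a, ha, rfl⟩
        exact hrel Q hQ hQc a ha) (subR (pinv c) P) (deg_subR _ _ _ hP) h1
      (HGP.tpt (a * c).1 (a * c).2) ⟨a, ha, rfl⟩
    have h3 := ev_subR (pinv c) P (a * c)
    unfold ev at h3
    rw [h3, mul_assoc, mul_pinv hc0 hdet, mul_one] at h2
    exact h2
  exact fun a ha => (hUB H hG hinf hdns a ha).2

end

end Pool.Agent.DRD
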