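import Pool.Agent.DRH.Act
import Pool.Agent.DRD.Tor

set_option autoImplicit false

/-!
# Tensors with coordinates in `L` and values `(2 π i) ^ k b` are invariant
-/

open scoped BigOperators Topology

namespace Pool.Agent.DRD

open Pool.Agent.HGP (Ix Simil)
open Pool.Agent.UBD (Pt Crd Pol ev InG GrpS Dns Inf1 Stmt_UB)
open Pool.Agent.DRH (tact tact_tact tact_one)

noncomputable section

variable {r n : ℕ} {g w : Fin r → ℕ}

/-- The relation. -/
def relS {R : Type} [CommRing R] (i : Fin n → Fin r) (a b : ℕ)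
    (α : (∀ s, Ix (g (i s))) → R) (J : ∀ s, Ix (g (i s))) (c : R) : MvPolynomial (Crd g) R :=
  MvPolynomial.X none ^ b * ∑ I, MvPolynomial.C (α I) *
      ∏ s, MvPolynomial.X (some ⟨i s, (I s, J s)⟩) -
    MvPolynomial.C c * MvPolynomial.X none ^ a

lemma relS_aeval {R : Type} [Field R] [Algebra R ℂ] (i : Fin n → Fin r) (a b : ℕ)
    (α : (∀ s, Ix (g (i s))) → R) (J : ∀ s, Ix (g (i s))) (c : R) (lam : ℂ)
    (M : ∀ l, Matrix (Ix (g l)) (Ix (g l)) ℂ) :
    MvPolynomial.aeval (HGP.tpt lam M) (relS i a b α J c) =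
      lam ^ b * tact i M (fun I => algebraMap R ℂ (α I)) J - algebraMap R ℂ c * lam ^ a := by
  unfold relS tact
  rw [map_sub, map_mul, map_mul, map_pow, map_pow, map_sum, MvPolynomial.aeval_X,
    MvPolynomial.aeval_C]
  congr 1
  congr 1
  refine Finset.sum_congr rfl fun I _ => ?_
  rw [map_mul, map_prod, MvPolynomial.aeval_C]
  congr 1
  refine Finset.prod_congr rfl fun s _ => ?_
  rw [MvPolynomial.aeval_X]
  rfl

/-- The main lemma: a tensor over `L` with values `c.1 ^ k b` at the point `c` is invariant. -/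
theorem invariant (D₀ : ℕ) (hUB : ∀ H : Set (Pt g), GrpS w H → Inf1 H → Dns D₀ w H →
      ∀ a, InG w a → a ∈ H)
    (L : IntermediateField ℚ ℂ) (hL : ∀ a ∈ L, IsAlgebraic ℚ a) (c : Pt g)
    (hc1 : Transcendental ℚ c.1) (hdet : ∀ i, (c.2 i).det ≠ 0)
    (A : ∀ i, Matrix (Ix (g i)) (Ix (g i)) ℚ)
    (hA : ∀ i, (c.2 i).transpose * Matrix.J (Fin (g i)) ℂ * c.2 i =
      (c.1 ^ w i) • (A i).map (fun q : ℚ => (q : ℂ)))
    (hrel : ∀ P : MvPolynomial (Crd g) L, P.totalDegree ≤ D₀ →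
      MvPolynomial.aeval (HGP.tpt c.1 c.2) P = (0 : ℂ) →
      ∀ a : Pt g, InG w a → MvPolynomial.aeval (HGP.tpt (a * c).1 (a * c).2) P = (0 : ℂ))
    (k : ℤ) (i : Fin n → Fin r) (α : (∀ s, Ix (g (i s))) → ℂ) (hα : ∀ I, α I ∈ L)
    (b : (∀ s, Ix (g (i s))) → ℚ)
    (hb : ∀ J, tact i c.2 α J = c.1 ^ k * ((b J : ℚ) : ℂ)) :
    ∀ a : Pt g, InG w a → tact i a.2 α = a.1 ^ k • α := by
  classical
  have hc0 : c.1 ≠ 0 := by
    intro h0
    rw [h0] at hc1
    exact hc1 isAlgebraic_zero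
  have tt : ∀ (M M' : ∀ l, Matrix (Ix (g l)) (Ix (g l)) ℂ) (β : (∀ s, Ix (g (i s))) → ℂ),
      tact i M' (tact i M β) = tact i (fun l => M l * M' l) β := fun M M' β =>
    tact_tact (ι := fun l => Ix (g l)) (κ := fun l => Ix (g l)) (τ := fun l => Ix (g l)) i M M' β
  have t1 : ∀ β : (∀ s, Ix (g (i s))) → ℂ,
      tact i (fun l => (1 : Matrix (Ix (g l)) (Ix (g l)) ℂ)) β = β := fun β =>
    tact_one (ι := fun l => Ix (g l)) i β
  have hinj : ∀ (M : ∀ l, Matrix (Ix (g l)) (Ix (g l)) ℂ), (∀ l, (M l).det ≠ 0) →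
      ∀ β β' : (∀ s, Ix (g (i s))) → ℂ, tact i M β = tact i M β' → β = β' := by
    intro M hM β β' he
    have h1 := congrArg (tact i (fun l => (M l)⁻¹)) he
    rw [tt, tt] at h1
    have h5 : (fun l => M l * (M l)⁻¹) = fun l => (1 : Matrix (Ix (g l)) (Ix (g l)) ℂ) := by
      funext l
      exact Matrix.mul_nonsing_inv _ (isUnit_iff_ne_zero.2 (hM l))
    rw [h5, t1, t1] at h1
    exact h1
  let S : Set (Pt g) := {x | ∀ J, tact i x.2 α J = x.1 ^ k * ((b J : ℚ) : ℂ)}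
  let α' : (∀ s, Ix (g (i s))) → L := fun I => ⟨α I, hα I⟩
  let E : Set (MvPolynomial (Crd g) L) :=
    {e | ∃ J, e = relS i k.toNat (-k).toNat α' J (algebraMap ℚ L (b J))}
  have hpw : ∀ lam : ℂ, lam ≠ 0 → lam ^ (-k).toNat * lam ^ k = lam ^ k.toNat := by
    intro lam hlam
    rw [← zpow_natCast lam (-k).toNat, ← zpow_natCast lam k.toNat, ← zpow_add₀ hlam]
    congr 1
    omega
  -- membership of `a * c`
  have hS : ∀ a : Pt g, InG w a → (a * c ∈ S ↔ tact i a.2 α = a.1 ^ k • α) := by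
    intro a ha
    have h1 : tact i (a * c).2 α = tact i c.2 (tact i a.2 α) := (tt _ _ _).symm
    constructor
    · intro h
      apply hinj c.2 hdet
      rw [DRH.tact_smul_right]
      funext J
      rw [Pi.smul_apply, smul_eq_mul, hb, ← h1, h J]
      change (a.1 * c.1) ^ k * _ = _
      rw [mul_zpow]
      ring
    · intro h J
      rw [h1, h, DRH.tact_smul_right, Pi.smul_apply, smul_eq_mul, hb]
      change _ = (a.1 * c.1) ^ k * _
      rw [mul_zpow]
      ring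
  have hSE : ∀ x : Pt g, x.1 ≠ 0 → (∀ i, (x.2 i).det ≠ 0) →
      (x ∈ S ↔ ∀ e ∈ E, MvPolynomial.aeval (HGP.tpt x.1 x.2) e = (0 : ℂ)) := by
    intro x hx _
    have h5 : (fun I => algebraMap L ℂ (α' I)) = α := rfl
    have h6 : ∀ J, algebraMap L ℂ (algebraMap ℚ L (b J)) = ((b J : ℚ) : ℂ) := fun J => by
      rw [← IsScalarTower.algebraMap_apply ℚ L ℂ]
      rfl
    constructor
    · rintro h e ⟨J, rfl⟩
      rw [relS_aeval, h5, h6, h J, ← mul_assoc, hpw _ hx]
      ring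
    · intro h J
      have h1 := h _ ⟨J, rfl⟩
      rw [relS_aeval, h5, h6] at h1
      apply mul_left_cancel₀ (pow_ne_zero (-k).toNat hx)
      rw [← mul_assoc, hpw _ hx]
      linear_combination h1
  have hcos : ∀ a b : Pt g, InG w a → InG w b → a * c ∈ S → b * c ∈ S →
      a * pinv b * c ∈ S ∧ a * b * c ∈ S := by
    intro a b ha hb ha' hb'
    rw [hS a ha] at ha'
    rw [hS b hb] at hb'
    constructor
    · rw [hS _ (InG.mul ha (InG.pinv hb))]
      change tact i (fun l => a.2 l * (b.2 l)⁻¹) α = (a.1 * b.1⁻¹) ^ k • α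
      apply hinj b.2 (InG.det hb)
      have h5 : (fun l => a.2 l * (b.2 l)⁻¹ * b.2 l) = a.2 := by
        funext l
        rw [Matrix.mul_assoc, Matrix.nonsing_inv_mul _ (isUnit_iff_ne_zero.2 (InG.det hb l)),
          Matrix.mul_one]
      rw [tt, h5, ha', DRH.tact_smul_right, hb', smul_smul, ← mul_zpow, mul_assoc,
        inv_mul_cancel₀ hb.1, mul_one]
    · rw [hS _ (InG.mul ha hb)]
      change tact i (fun l => a.2 l * b.2 l) α = (a.1 * b.1) ^ k • α
      rw [← tt, ha', DRH.tact_smul_right, hb', smul_smul, ← mul_zpow]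
  intro a ha
  rw [← hS a ha]
  exact torsor D₀ hUB L hL c hc1 hdet A hA hrel S E hSE hb hcos a ha

end

end Pool.Agent.DRD
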