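import Pool.Agent.DG2.CStmts

set_option autoImplicit false

/-!
# Riemann's relations for the curves of the families
-/

open scoped BigOperators Topology
open Metric Set

namespace Pool.Agent.DRD

open Pool.Agent.HGP (Ix Simil)
open Pool.Agent.GPH (CPath perMat num tpt fus pol f0)
open Pool.Agent.DG2 (critVals crv Stmt_FinC Stmt_RefX Stmt_CvP Stmt_NmQ Sep cC NmC Ref)

noncomputable section

lemma crv_eq (g : ℕ) (f : Fin (2 * g + 1) → ℚ) (t : ℚ) :
    crv g f t = fus g (cC (fun k : Fin (2 * g) => f k.succ)) ((f 0 + t : ℚ) : ℂ) := by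
  unfold crv fus pol
  rw [Fin.sum_univ_succ, Fin.sum_univ_succ]
  simp only [Fin.cons_zero, Fin.cons_succ, cC]
  push_cast
  rw [Polynomial.C_add]
  simp only [Fin.val_zero, pow_zero, mul_one]
  ring

/-- The periods of closed paths are integral combinations of the columns of a symplectic
similitude with multiplier `2 π i`. -/
theorem legendre (hX : Stmt_RefX) (g : ℕ) (hg : 0 < g) (f : Fin (2 * g + 1) → ℚ) (t : ℚ)
    (hs : Sep (fun k : Fin (2 * g) => f k.succ) ((f 0 + t : ℚ) : ℂ)) :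
    ∃ M : Matrix (Ix g) (Ix g) ℂ, Simil (2 * Real.pi * Complex.I) M ∧
      ∀ γ : CPath (crv g f t), ∃ K : Ix g → ℤ, ∀ k,
        γ.per (num g (crv g f t) k) = ∑ j, M k j * K j := by
  obtain ⟨R, W, hR⟩ := hX g (fun k : Fin (2 * g) => f k.succ) (f 0 + t) hg hs
  have hm : ((f 0 + t : ℚ) : ℂ) ∈ ball ((f 0 + t : ℚ) : ℂ) R := mem_ball_self hR.pos
  refine ⟨_, hR.simil _ hm, ?_⟩
  rw [crv_eq]
  exact hR.loops _ hm

/-- The curves near the given one are nonsingular. -/
theorem sep_near (hV : Stmt_CvP) (g : ℕ) (hg : 0 < g) (f : Fin (2 * g + 1) → ℚ)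
    (h0 : (0 : ℂ) ∉ critVals (crv g f 0)) (hc : (critVals (crv g f 0)).ncard = 2 * g) :
    ∃ ε : ℝ, 0 < ε ∧ ∀ t : ℚ, |(t : ℝ)| < ε →
      Sep (fun k : Fin (2 * g) => f k.succ) ((f 0 + t : ℚ) : ℂ) := by
  have hfin : (critVals (crv g f 0)).Finite := by
    apply Set.finite_of_ncard_ne_zero
    rw [hc]
    omega
  have hop : IsOpen (critVals (crv g f 0))ᶜ := hfin.isClosed.isOpen_compl
  obtain ⟨ε, hε, hball⟩ := Metric.isOpen_iff.1 hop 0 h0
  refine ⟨ε, hε, fun t ht => ?_⟩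
  have h1 := ((hV g f).2 (t : ℂ)).2
  push_cast
  apply h1
  apply hball
  rw [mem_ball_zero_iff, norm_neg]
  have h2 : (t : ℂ) = (((t : ℝ)) : ℂ) := by push_cast; rfl
  rw [h2, Complex.norm_real]
  exact ht

/-- The matrix of the periods along a basis: rationality of the intersection numbers. -/
theorem inter {g : ℕ} {M K : Matrix (Ix g) (Ix g) ℂ} (Kz : Matrix (Ix g) (Ix g) ℤ)
    (hK : K = Kz.map (fun z : ℤ => (z : ℂ))) {lam : ℂ} (hM : Simil lam M) :
    ∃ A : Matrix (Ix g) (Ix g) ℚ,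
      (M * K).transpose * Matrix.J (Fin g) ℂ * (M * K) = lam • A.map (fun q : ℚ => (q : ℂ)) := by
  classical
  refine ⟨(Kz.map (fun z : ℤ => (z : ℚ))).transpose * Matrix.J (Fin g) ℚ *
    Kz.map (fun z : ℤ => (z : ℚ)), ?_⟩
  have h1 : (M * K).transpose * Matrix.J (Fin g) ℂ * (M * K) =
      lam • (K.transpose * Matrix.J (Fin g) ℂ * K) := by
    rw [Matrix.transpose_mul]
    calc K.transpose * M.transpose * Matrix.J (Fin g) ℂ * (M * K)
        = K.transpose * (M.transpose * Matrix.J (Fin g) ℂ * M) * K := by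
          simp only [Matrix.mul_assoc]
      _ = _ := by
          rw [show M.transpose * Matrix.J (Fin g) ℂ * M = lam • Matrix.J (Fin g) ℂ from hM,
            Matrix.mul_smul, Matrix.smul_mul]
  rw [h1]
  congr 1
  have h2 : K = (Kz.map (fun z : ℤ => (z : ℚ))).map (algebraMap ℚ ℂ) := by
    rw [hK]
    ext u v
    simp
  have hJ : Matrix.J (Fin g) ℂ = (Matrix.J (Fin g) ℚ).map (algebraMap ℚ ℂ) := by
    ext u v
    rcases u with u | u <;> rcases v with v | v <;>
      simp [Matrix.J, Matrix.one_apply, apply_ite]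
  have h3 : ∀ B : Matrix (Ix g) (Ix g) ℚ, B.map (fun q : ℚ => (q : ℂ)) =
      B.map (algebraMap ℚ ℂ) := fun B => rfl
  rw [h3, Matrix.map_mul, Matrix.map_mul, ← hJ, h2, Matrix.transpose_map]

end

end Pool.Agent.DRD
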