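import Pool.Agent.DRH.Sealed

/-!
# De Rham–Betti classes and torsors over number fields

The curves are `C_l : y ^ 2 = F_l x`, `F_l` monic of degree `2 g_l + 1`, `L` is a subfield of the
complex numbers which contains the coefficients. The space of the classes is
`H¹(C_{i_1}) ⊗ ⋯ ⊗ H¹(C_{i_n}) (k)`. Its de Rham realization has the basis of the tensor products
of the differentials `num κ dx / y`, its Betti realization consists of the rational functions of
`n` closed paths, multilinear on homology. `DRH.IsHodge` is imported.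
-/

open scoped BigOperators
open Pool.Agent.HGP (Ix)
open Pool.Agent.GPH (CPath perMat)

namespace Pool.Agent.DRD

noncomputable section

/-- `γ` consists, for every curve, of `2 g_l` closed paths which are a basis of the rational
homology. -/
def IsBasis {r : ℕ} {g : Fin r → ℕ} {F : Fin r → Polynomial ℂ}
    (γ : ∀ l, Fin (2 * g l) → CPath (F l)) : Prop :=
  ∀ l, LinearIndependent ℂ (fun κ => perMat (g l) (γ l) κ)

/-- `α = (α_I)` are the coordinates of a de Rham–Betti class over `L` on
`H¹(C_{i_1}) ⊗ ⋯ ⊗ H¹(C_{i_n}) (k)`: they are in `L`, and on some basis of the rational homology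
of each curve the class takes values `(2 π i) ^ k b` with `b` rational. -/
def IsDRB {r : ℕ} {g : Fin r → ℕ} (F : Fin r → Polynomial ℂ) (L : IntermediateField ℚ ℂ) (n : ℕ)
    (k : ℤ) (i : Fin n → Fin r) (α : (∀ s, Ix (g (i s))) → ℂ) : Prop :=
  (∀ I, α I ∈ L) ∧
  ∃ γ : ∀ l, Fin (2 * g l) → CPath (F l), IsBasis γ ∧
    ∀ J : (∀ s, Fin (2 * g (i s))), ∃ b : ℚ,
      ∑ I, α I * ∏ s, perMat (g (i s)) (γ (i s)) (I s) (J s) =
        (2 * Real.pi * Complex.I) ^ k * (b : ℂ)

/-- The group of all automorphisms of the de Rham side of `1 (1) ⊕ H¹(C_1) ⊕ ⋯ ⊕ H¹(C_r)` which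
preserve the summands. -/
abbrev Aut {r : ℕ} (g : Fin r → ℕ) : Type := ℂˣ × (∀ l, (Matrix (Ix (g l)) (Ix (g l)) ℂ)ˣ)

/-- The point with coordinates `lam`, `M l`. -/
def pt {r : ℕ} {g : Fin r → ℕ} (lam : ℂ) (M : ∀ l, Matrix (Ix (g l)) (Fin (2 * g l)) ℂ) :
    Option (Σ l : Fin r, Ix (g l) × Fin (2 * g l)) → ℂ :=
  fun o => o.elim lam (fun p => M p.1 p.2.1 p.2.2)

/-- The orbit `H c` of the point `c = (2 π i, period matrices along γ)` under the group `H` is the
set of the common zeros (among the points of the orbit of `c` under all automorphisms) of some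
polynomials with coefficients in `L`: it is a torsor over `L` under `H`, which contains `c`. -/
def IsTorsor {r : ℕ} {g : Fin r → ℕ} {F : Fin r → Polynomial ℂ} (L : IntermediateField ℚ ℂ)
    (γ : ∀ l, Fin (2 * g l) → CPath (F l)) (H : Subgroup (Aut g)) : Prop :=
  ∃ E : Set (MvPolynomial (Option (Σ l : Fin r, Ix (g l) × Fin (2 * g l))) L),
    ∀ x : Aut g, x ∈ H ↔ ∀ e ∈ E, MvPolynomial.aeval (pt ((x.1 : ℂ) * (2 * Real.pi * Complex.I))
      (fun l => (x.2 l : Matrix (Ix (g l)) (Ix (g l)) ℂ) * perMat (g l) (γ l))) e = (0 : ℂ)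

end

end Pool.Agent.DRD
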