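import Pool.Agent.DRH.Main
import Pool.Agent.DRD.Sealed
import Pool.Agent.DRD.Inv
import Pool.Agent.DRD.Leg
import Pool.Agent.Lib70.PiTranscendental

set_option autoImplicit false

/-!
# All de Rham–Betti classes over number fields of bounded degree: proof
-/

open scoped BigOperators Topology

namespace Pool.Agent.DRD

open Pool.Agent.HGP (Ix Simil)
open Pool.Agent.GPH (CPath perMat num tpt)
open Pool.Agent.UBD (Pt Crd Pol ev InG GrpS Dns Inf1 Stmt_UB)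
open Pool.Agent.DRH (tact mm pp ee ext ext_pp two_pi_I_ne tact_tact tact_one
  isHodge_of_finVal IsHodge)

noncomputable section

/-- `2 π i` is transcendental. -/
lemma tr : Transcendental ℚ (2 * Real.pi * Complex.I : ℂ) := by
  intro halg
  apply Pool.Agent.Lib70.PiTr.transcendental_pi
  have hI : IsAlgebraic ℚ Complex.I :=
    ⟨Polynomial.X ^ 2 + 1, by
      intro h
      have := congrArg (Polynomial.eval 0) h
      simp at this, by simp⟩
  have h2 : IsAlgebraic ℚ ((2 * Real.pi * Complex.I) * Complex.I : ℂ) := halg.mul hI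
  have h3 : ((2 * Real.pi * Complex.I) * Complex.I : ℂ) = -2 * (Real.pi : ℂ) := by
    have := Complex.I_mul_I
    linear_combination (2 * (Real.pi : ℂ)) * this
  rw [h3] at h2
  have h4 : IsAlgebraic ℚ ((-2 : ℂ)⁻¹ * (-2 * (Real.pi : ℂ))) := by
    refine IsAlgebraic.mul ?_ h2
    have : ((-2 : ℂ)⁻¹) = algebraMap ℚ ℂ ((-2)⁻¹) := by simp
    rw [this]
    exact isAlgebraic_algebraMap _
  have h5 : ((-2 : ℂ)⁻¹ * (-2 * (Real.pi : ℂ))) = ((Real.pi : ℝ) : ℂ) := by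
    field_simp
  rw [h5] at h4
  exact (isAlgebraic_algebraMap_iff (algebraMap ℝ ℂ).injective).1 h4

/-- Invariant tensors with algebraic coordinates are Hodge classes. -/
theorem hodge_of_inv {r n : ℕ} {g : Fin r → ℕ} {k : ℤ} {i : Fin n → Fin r}
    {α : (∀ s, Ix (g (i s))) → ℂ} (halg : ∀ I, IsAlgebraic ℚ (α I))
    (hinv : ∀ (mu : ℂ) (h : ∀ l, Matrix (Ix (g l)) (Ix (g l)) ℂ), mu ≠ 0 →
      (∀ l, Simil mu (h l)) → tact i h α = mu ^ k • α) : IsHodge n k i α := by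
  apply isHodge_of_finVal
  intro I'
  have halg' : IsAlgebraic ℤ (α I') :=
    (IsFractionRing.isAlgebraic_iff ℤ ℚ ℂ).mpr (halg I')
  obtain ⟨P, hP0, hP⟩ := halg'
  refine ⟨P, hP0, fun mu h hmu hh => ?_⟩
  have h1 := hinv mu h hmu hh
  have h2 : tact i (fun l => (h l)⁻¹) (tact i h α) = α := by
    have h3 := tact_tact (ι := fun l => Ix (g l)) (κ := fun l => Ix (g l))
      (τ := fun l => Ix (g l)) i h (fun l => (h l)⁻¹) α
    rw [h3]
    have h5 : (fun l => h l * (h l)⁻¹) = fun l => (1 : Matrix (Ix (g l)) (Ix (g l)) ℂ) := by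
      funext l
      exact Matrix.mul_nonsing_inv _ (isUnit_iff_ne_zero.2 (det_ne hmu (hh l)))
    rw [h5]
    exact tact_one (ι := fun l => Ix (g l)) i α
  rw [h1, DRH.tact_smul_right] at h2
  have h3 := congrFun h2 I'
  rw [Pi.smul_apply, smul_eq_mul] at h3
  rw [h3]
  exact hP

section geom

variable {r : ℕ} {g : Fin r → ℕ} {F : Fin r → Polynomial ℂ}

/-- The square period matrices. -/
def sq (γ : ∀ l, Fin (2 * g l) → CPath (F l)) (l : Fin r) : Matrix (Ix (g l)) (Ix (g l)) ℂ :=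
  (perMat (g l) (γ l)).submatrix id (ee (g l))

lemma sq_det {γ : ∀ l, Fin (2 * g l) → CPath (F l)} (hγ : IsBasis γ) (l : Fin r) :
    (sq γ l).det ≠ 0 := by
  have h1 : LinearIndependent ℂ ((perMat (g l) (γ l)).submatrix id (ee (g l))).row := by
    have h2 := (hγ l).map' (LinearEquiv.funCongrLeft ℂ ℂ (ee (g l))).toLinearMap
      (LinearEquiv.ker _)
    exact h2
  have h3 := Matrix.linearIndependent_rows_iff_isUnit.1 h1
  rw [Matrix.isUnit_iff_isUnit_det] at h3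
  exact h3.ne_zero

/-- Rationality of the intersection matrix. -/
lemma sq_inter (hleg : ∀ l, ∃ M : Matrix (Ix (g l)) (Ix (g l)) ℂ,
      Simil (2 * Real.pi * Complex.I) M ∧ ∀ γ : CPath (F l), ∃ K : Ix (g l) → ℤ, ∀ k,
        γ.per (num (g l) (F l) k) = ∑ j, M k j * K j)
    (γ : ∀ l, Fin (2 * g l) → CPath (F l)) (l : Fin r) :
    ∃ A : Matrix (Ix (g l)) (Ix (g l)) ℚ,
      (sq γ l).transpose * Matrix.J (Fin (g l)) ℂ * sq γ l =
        (2 * Real.pi * Complex.I : ℂ) • A.map (fun q : ℚ => (q : ℂ)) := by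
  obtain ⟨M, hM, hK⟩ := hleg l
  choose K hK using fun κ' : Ix (g l) => hK (γ l (ee (g l) κ'))
  have h1 : sq γ l = M * (Matrix.of fun j κ' => K κ' j).map (fun z : ℤ => (z : ℂ)) := by
    ext κ κ'
    change (γ l (ee (g l) κ')).per (num (g l) (F l) κ) = _
    rw [hK κ' κ, Matrix.mul_apply]
    rfl
  rw [h1]
  exact inter _ rfl hM

/-- Polynomial relations for the square period matrices. -/
lemma sq_rel (hg : ∀ l, 0 < g l) (D D₀ : ℕ)
    (hF : ∀ (m : ℕ) (γ : ∀ l, Fin m → CPath (F l)) (L : IntermediateField ℚ ℂ),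
      FiniteDimensional ℚ L → Module.finrank ℚ L ≤ D →
      ∀ P : MvPolynomial (Option (Σ l : Fin r, Ix (g l) × Fin m)) L,
      P.totalDegree ≤ D₀ →
      MvPolynomial.aeval (tpt (2 * Real.pi * Complex.I) (fun l => perMat (g l) (γ l))) P =
        (0 : ℂ) →
      ∀ (mu : ℂ) (h : ∀ l, Matrix (Ix (g l)) (Ix (g l)) ℂ), mu ≠ 0 → (∀ l, Simil mu (h l)) →
        MvPolynomial.aeval (tpt (mu * (2 * Real.pi * Complex.I))
          (fun l => h l * perMat (g l) (γ l))) P = (0 : ℂ))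
    (L : IntermediateField ℚ ℂ) (hLf : FiniteDimensional ℚ L) (hLD : Module.finrank ℚ L ≤ D)
    (γ₀ : ∀ l, Fin (2 * g l) → CPath (F l)) (P : MvPolynomial (Crd g) L)
    (hP : P.totalDegree ≤ D₀)
    (hP0 : MvPolynomial.aeval (HGP.tpt (2 * Real.pi * Complex.I) (sq γ₀)) P = (0 : ℂ))
    (a : Pt g) (ha : InG (fun _ => 1) a) :
    MvPolynomial.aeval (HGP.tpt (a * ((2 * Real.pi * Complex.I, sq γ₀) : Pt g)).1
      (a * ((2 * Real.pi * Complex.I, sq γ₀) : Pt g)).2) P = (0 : ℂ) := by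
  set γ : ∀ l, Fin (mm g) → CPath (F l) := ext hg γ₀ with hγ
  have hsub : ∀ l, (perMat (g l) (γ l)).submatrix id (pp g l) = sq γ₀ l := by
    intro l
    ext κ κ'
    change (ext hg γ₀ l (pp g l κ')).per _ = (γ₀ l (ee (g l) κ')).per _
    rw [ext_pp]
  obtain ⟨m, y⟩ := a
  let f : Crd g → Option (Σ l : Fin r, Ix (g l) × Fin (mm g)) :=
    Option.map fun p => ⟨p.1, (p.2.1, pp g p.1 p.2.2)⟩
  have hf : ∀ (lam : ℂ) (X : ∀ l, Matrix (Ix (g l)) (Fin (mm g)) ℂ),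
      tpt lam X ∘ f = HGP.tpt lam (fun l => (X l).submatrix id (pp g l)) := by
    intro lam X
    funext o
    cases o with
    | none => rfl
    | some p => rfl
  have h1 := hF (mm g) γ L hLf hLD (MvPolynomial.rename f P)
    ((MvPolynomial.totalDegree_rename_le _ _).trans hP) (by
      rw [MvPolynomial.aeval_rename, hf]
      have h2 : (fun l => (perMat (g l) (γ l)).submatrix id (pp g l)) = sq γ₀ := funext hsub
      rw [h2]
      exact hP0) m y ha.1 (fun l => by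
        have := ha.2 l
        rw [pow_one] at this
        exact this)
  rw [MvPolynomial.aeval_rename, hf] at h1
  have h3 : (fun l => (y l * perMat (g l) (γ l)).submatrix id (pp g l)) =
      fun l => y l * sq γ₀ l := by
    funext l
    rw [← hsub l]
    rfl
  rw [h3] at h1
  exact h1

end geom

/-- The classes are Hodge classes. -/
theorem key2 {r : ℕ} (g : Fin r → ℕ) (F : Fin r → Polynomial ℂ) (D₀ : ℕ)
    (hUB : ∀ H : Set (Pt g), GrpS (fun _ => 1) H → Inf1 H → Dns D₀ (fun _ => 1) H →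
      ∀ a, InG (fun _ => 1) a → a ∈ H)
    (hleg : ∀ l, ∃ M : Matrix (Ix (g l)) (Ix (g l)) ℂ, Simil (2 * Real.pi * Complex.I) M ∧
      ∀ γ : CPath (F l), ∃ K : Ix (g l) → ℤ, ∀ k,
        γ.per (num (g l) (F l) k) = ∑ j, M k j * K j)
    (L : IntermediateField ℚ ℂ) (hLalg : ∀ a ∈ L, IsAlgebraic ℚ a)
    (hrel : ∀ (γ : ∀ l, Fin (2 * g l) → CPath (F l)) (P : MvPolynomial (Crd g) L),
      P.totalDegree ≤ D₀ →
      MvPolynomial.aeval (HGP.tpt (2 * Real.pi * Complex.I) (sq γ)) P = (0 : ℂ) →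
      ∀ a : Pt g, InG (fun _ => 1) a →
      MvPolynomial.aeval (HGP.tpt (a * ((2 * Real.pi * Complex.I, sq γ) : Pt g)).1
        (a * ((2 * Real.pi * Complex.I, sq γ) : Pt g)).2) P = (0 : ℂ))
    (n : ℕ) (k : ℤ) (i : Fin n → Fin r)
    (α : (∀ s, Ix (g (i s))) → ℂ) (hα : IsDRB F L n k i α) : IsHodge n k i α := by
  classical
  obtain ⟨hαL, γ, hγ, hb⟩ := hα
  choose b hb3 using fun J : (∀ s, Ix (g (i s))) => hb (fun s => ee (g (i s)) (J s))
  have hval : ∀ J, tact i (sq γ) α J = (2 * Real.pi * Complex.I) ^ k * ((b J : ℚ) : ℂ) := by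
    intro J
    exact hb3 J
  choose A hA using sq_inter hleg γ
  refine hodge_of_inv (fun I => hLalg _ (hαL I)) ?_
  intro mu h hmu hh
  refine invariant (w := fun _ => 1) D₀ hUB L hLalg (2 * Real.pi * Complex.I, sq γ) tr
    (sq_det hγ) A (fun l => ?_) (hrel γ) k i α hαL b hval (mu, h) ⟨hmu, fun l => ?_⟩
  · change (sq γ l).transpose * Matrix.J (Fin (g l)) ℂ * sq γ l =
      (2 * Real.pi * Complex.I : ℂ) ^ 1 • _
    rw [pow_one]
    exact hA l
  · change Simil (mu ^ 1) (h l)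
    rw [pow_one]
    exact hh l

/-- No proper subtorsor. -/
theorem key3 {r : ℕ} (g : Fin r → ℕ) (F : Fin r → Polynomial ℂ) (D₀ : ℕ)
    (hUB : ∀ H : Set (Pt g), GrpS (fun _ => 1) H → Inf1 H → Dns D₀ (fun _ => 1) H →
      ∀ a, InG (fun _ => 1) a → a ∈ H)
    (hleg : ∀ l, ∃ M : Matrix (Ix (g l)) (Ix (g l)) ℂ, Simil (2 * Real.pi * Complex.I) M ∧
      ∀ γ : CPath (F l), ∃ K : Ix (g l) → ℤ, ∀ k,
        γ.per (num (g l) (F l) k) = ∑ j, M k j * K j)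
    (L : IntermediateField ℚ ℂ) (hLalg : ∀ a ∈ L, IsAlgebraic ℚ a)
    (hrel : ∀ (γ : ∀ l, Fin (2 * g l) → CPath (F l)) (P : MvPolynomial (Crd g) L),
      P.totalDegree ≤ D₀ →
      MvPolynomial.aeval (HGP.tpt (2 * Real.pi * Complex.I) (sq γ)) P = (0 : ℂ) →
      ∀ a : Pt g, InG (fun _ => 1) a →
      MvPolynomial.aeval (HGP.tpt (a * ((2 * Real.pi * Complex.I, sq γ) : Pt g)).1
        (a * ((2 * Real.pi * Complex.I, sq γ) : Pt g)).2) P = (0 : ℂ))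
    (γ : ∀ l, Fin (2 * g l) → CPath (F l)) (hγ : IsBasis γ) (H : Subgroup (Aut g))
    (hH : IsTorsor L γ H) (x : Aut g)
    (hx : ∀ l, Simil (x.1 : ℂ) (x.2 l : Matrix (Ix (g l)) (Ix (g l)) ℂ)) : x ∈ H := by
  classical
  obtain ⟨E, hE⟩ := hH
  choose A hA using sq_inter hleg γ
  set c : Pt g := (2 * Real.pi * Complex.I, sq γ) with hc
  have hc0 : c.1 ≠ 0 := two_pi_I_ne
  have hdet := sq_det hγ
  -- the coordinates
  let f : Option (Σ l : Fin r, Ix (g l) × Fin (2 * g l)) → Crd g :=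
    Option.map fun p => ⟨p.1, (p.2.1, (ee (g p.1)).symm p.2.2)⟩
  have hf : ∀ a : Pt g, HGP.tpt (a * c).1 (a * c).2 ∘ f =
      pt (a.1 * (2 * Real.pi * Complex.I)) (fun l => a.2 l * perMat (g l) (γ l)) := by
    intro a
    funext o
    cases o with
    | none => rfl
    | some p =>
      change (a.2 p.1 * sq γ p.1) p.2.1 ((ee (g p.1)).symm p.2.2) =
        (a.2 p.1 * perMat (g p.1) (γ p.1)) p.2.1 p.2.2
      rw [Matrix.mul_apply, Matrix.mul_apply]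
      refine Finset.sum_congr rfl fun j _ => ?_
      congr 1
      unfold sq
      rw [Matrix.submatrix_apply, Equiv.apply_symm_apply]
      rfl
  -- units
  have hu : ∀ a : Pt g, a.1 ≠ 0 → (∀ l, (a.2 l).det ≠ 0) → ∃ u : Aut g, (u.1 : ℂ) = a.1 ∧
      ∀ l, (u.2 l : Matrix (Ix (g l)) (Ix (g l)) ℂ) = a.2 l := fun a h1 h2 =>
    ⟨(Units.mk0 a.1 h1, fun l => Matrix.GeneralLinearGroup.mkOfDetNeZero (a.2 l) (h2 l)), rfl,
      fun l => rfl⟩
  let toPt : Aut g → Pt g := fun u => (u.1, fun l => (u.2 l : Matrix (Ix (g l)) (Ix (g l)) ℂ))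
  have hinj : ∀ u v : Aut g, toPt u = toPt v → u = v := by
    intro u v h
    apply Prod.ext
    · exact Units.ext (congrArg Prod.fst h)
    · funext l
      exact Units.ext (congrFun (congrArg Prod.snd h) l)
  have hmul : ∀ u v : Aut g, toPt (u * v) = toPt u * toPt v := fun u v => rfl
  have hinvu : ∀ u : Aut g, toPt u⁻¹ = pinv (toPt u) := by
    intro u
    apply Prod.ext
    · exact Units.val_inv_eq_inv_val u.1
    · funext l
      exact Matrix.coe_units_inv (u.2 l)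
  let S : Set (Pt g) := {y | ∃ u ∈ H, y = toPt u * c}
  have hSu : ∀ u : Aut g, toPt u * c ∈ S ↔ u ∈ H := by
    intro u
    constructor
    · rintro ⟨v, hv, h⟩
      have h1 := congrArg (fun z => z * pinv c) h
      simp only [mul_assoc, mul_pinv hc0 hdet, mul_one] at h1
      rw [hinj _ _ h1]
      exact hv
    · intro h
      exact ⟨u, h, rfl⟩
  have hSE : ∀ y : Pt g, y.1 ≠ 0 → (∀ i, (y.2 i).det ≠ 0) →
      (y ∈ S ↔ ∀ e ∈ (MvPolynomial.rename f) '' E,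
        MvPolynomial.aeval (HGP.tpt y.1 y.2) e = (0 : ℂ)) := by
    intro y hy1 hy2
    obtain ⟨u, hu1, hu2⟩ := hu (y * pinv c) (mul_ne_zero hy1 (inv_ne_zero hc0)) (fun l => by
      change (y.2 l * (c.2 l)⁻¹).det ≠ 0
      rw [Matrix.det_mul]
      refine mul_ne_zero (hy2 l) ?_
      have h1 := congrArg Matrix.det (Matrix.mul_nonsing_inv (c.2 l)
        (isUnit_iff_ne_zero.2 (hdet l)))
      rw [Matrix.det_mul, Matrix.det_one] at h1
      intro h2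
      rw [h2, mul_zero] at h1
      exact zero_ne_one h1)
    have hyu : y = toPt u * c := by
      have h1 : toPt u = y * pinv c := Prod.ext hu1 (funext hu2)
      rw [h1, mul_assoc, pinv_mul hc0 hdet, mul_one]
    rw [hyu, hSu, hE u]
    constructor
    · rintro h e ⟨e', he', rfl⟩
      rw [MvPolynomial.aeval_rename, hf]
      exact h e' he'
    · intro h e he
      have h1 := h _ ⟨e, he, rfl⟩
      rw [MvPolynomial.aeval_rename, hf] at h1
      exact h1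
  have hInG : ∀ a : Pt g, InG (fun _ => 1) a → ∃ u : Aut g, toPt u = a := by
    intro a ha
    obtain ⟨u, hu1, hu2⟩ := hu a ha.1 (InG.det ha)
    exact ⟨u, Prod.ext hu1 (funext hu2)⟩
  have hcos : ∀ a b : Pt g, InG (fun _ => 1) a → InG (fun _ => 1) b → a * c ∈ S → b * c ∈ S →
      a * pinv b * c ∈ S ∧ a * b * c ∈ S := by
    intro a b ha hb ha' hb'
    obtain ⟨u, rfl⟩ := hInG a ha
    obtain ⟨v, rfl⟩ := hInG b hb
    rw [hSu] at ha' hb'
    rw [← hinvu, ← hmul, ← hmul, hSu, hSu]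
    exact ⟨H.mul_mem ha' (H.inv_mem hb'), H.mul_mem ha' hb'⟩
  have hcS : c ∈ S := by
    refine ⟨1, H.one_mem, ?_⟩
    change c = 1 * c
    rw [one_mul]
  have hfin := torsor (w := fun _ => 1) D₀ hUB L hLalg c tr hdet A (fun l => by
    rw [pow_one]
    exact hA l) (hrel γ) S _ hSE hcS hcos (toPt x) ⟨x.1.ne_zero, fun l => by
      rw [pow_one]
      exact hx l⟩
  rwa [hSu] at hfin

open Pool.Agent.DG2 (critVals crv Stmt_FinC Stmt_RefX Stmt_CvP) in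
/-- The main theorem. -/
theorem main2 (hF : Stmt_FinC) (hX : Stmt_RefX) (hV : Stmt_CvP) (hUB : Stmt_UB)
    (nF : ℕ) (G : Fin nF → ℕ) (f : ∀ a, Fin (2 * G a + 1) → ℚ)
    (hG : ∀ a, 0 < G a) (h0 : ∀ a, (0 : ℂ) ∉ critVals (crv (G a) (f a) 0))
    (hc : ∀ a, (critVals (crv (G a) (f a) 0)).ncard = 2 * G a)
    (hp : ∀ a b, a ≠ b → ∀ ρ : ℚ, 0 < ρ →
      (fun v => (ρ : ℂ) * v) '' critVals (crv (G a) (f a) 0) ≠ critVals (crv (G b) (f b) 0))
    (r : ℕ) (φ : Fin r → Fin nF) (D : ℕ) : ∃ δ : ℝ, 0 < δ ∧ ∃ n₀ : ℕ, ∀ n : ℕ, n₀ ≤ n →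
    ∃ S : Finset ℚ, S.card ≤ r * (1 + ∑ a, G a * (2 * G a + 1)) ∧
    ∀ ρ : Fin r → ℚ, (∀ i j, i ≠ j → φ i = φ j → ρ i ≠ ρ j) →
    (∀ i, 0 < ρ i ∧ ρ i ∉ S ∧ ((ρ i).num : ℝ) ≤ (n : ℝ) ^ δ ∧
      ((ρ i).den : ℝ) ≤ (n : ℝ) ^ δ) →
    ∀ L : IntermediateField ℚ ℂ, FiniteDimensional ℚ L → Module.finrank ℚ L ≤ D →
    (∀ (γ : ∀ l, Fin (2 * G (φ l)) → CPath (crv (G (φ l)) (f (φ l)) (ρ l / n))),
      IsBasis (g := fun l => G (φ l)) γ → ∀ H : Subgroup (Aut (fun l => G (φ l))),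
      IsTorsor (g := fun l => G (φ l)) L γ H →
      ∀ x : Aut (fun l => G (φ l)), (∀ l, Simil (x.1 : ℂ)
        (x.2 l : Matrix (Ix (G (φ l))) (Ix (G (φ l))) ℂ)) → x ∈ H) ∧
    ∀ (m : ℕ) (k : ℤ) (i : Fin m → Fin r) (α : (∀ s, Ix (G (φ (i s)))) → ℂ),
      IsDRB (g := fun l => G (φ l))
        (fun l => crv (G (φ l)) (f (φ l)) (ρ l / n)) L m k i α →
      IsHodge (g := fun l => G (φ l)) m k i α := by
  obtain ⟨D₀, hD₀⟩ := hUB r (fun l => G (φ l)) (fun _ => 1) (fun l => hG (φ l))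
  obtain ⟨δ, hδ, n₀, hn⟩ := hF nF G f hG h0 hc hp r φ (max D D₀)
  choose ε hε hsep using fun a => sep_near hV (G a) (hG a) (f a) (h0 a) (hc a)
  obtain ⟨ε₀, hε₀, hε₀'⟩ : ∃ ε₀ : ℝ, 0 < ε₀ ∧ ∀ a, ε₀ ≤ ε a := by
    by_cases hnF : nF = 0
    · subst hnF
      exact ⟨1, one_pos, fun a => a.elim0⟩
    · have : Nonempty (Fin nF) := ⟨⟨0, Nat.pos_of_ne_zero hnF⟩⟩
      obtain ⟨a, ha⟩ := Finite.exists_min ε
      exact ⟨ε a, hε a, ha⟩
  obtain ⟨n₁, hn₁⟩ : ∃ n₁ : ℕ, ∀ n : ℕ, n₁ ≤ n → 0 < n ∧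
      (n : ℝ) ^ (min δ (1 / 2)) / n < ε₀ := by
    have h1 : Filter.Tendsto (fun x : ℝ => x ^ (-(1 / 2 : ℝ))) Filter.atTop (nhds 0) :=
      tendsto_rpow_neg_atTop (by norm_num)
    have h2 := (h1.comp tendsto_natCast_atTop_atTop).eventually (gt_mem_nhds hε₀)
    obtain ⟨n₁, hn₁⟩ := Filter.eventually_atTop.1 (h2.and (Filter.eventually_ge_atTop 1))
    refine ⟨n₁, fun n hn => ?_⟩
    obtain ⟨h3, h4⟩ := hn₁ n hn
    have hn0 : (0 : ℝ) < n := by exact_mod_cast h4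
    have hn1 : (1 : ℝ) ≤ n := by exact_mod_cast h4
    refine ⟨h4, lt_of_le_of_lt ?_ h3⟩
    rw [div_le_iff₀ hn0]
    change (n : ℝ) ^ (min δ (1 / 2)) ≤ (n : ℝ) ^ (-(1 / 2 : ℝ)) * n
    have h5 : (n : ℝ) ^ (-(1 / 2 : ℝ)) * n = (n : ℝ) ^ (1 / 2 : ℝ) := by
      nth_rewrite 2 [← Real.rpow_one (n : ℝ)]
      rw [← Real.rpow_add hn0]
      norm_num
    rw [h5]
    exact Real.rpow_le_rpow_of_exponent_le hn1 (min_le_right _ _)
  refine ⟨min δ (1 / 2), lt_min hδ (by norm_num), max n₀ n₁, fun n hn' => ?_⟩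
  obtain ⟨S, hS, hρ⟩ := hn n ((le_max_left _ _).trans hn')
  obtain ⟨hn0, hnε⟩ := hn₁ n ((le_max_right _ _).trans hn')
  have hnr : (0 : ℝ) < n := by exact_mod_cast hn0
  have hn1 : (1 : ℝ) ≤ n := by exact_mod_cast hn0
  refine ⟨S, hS, fun ρ h1 h2 L hLf hLD => ?_⟩
  have h2' : ∀ i, 0 < ρ i ∧ ρ i ∉ S ∧ ((ρ i).num : ℝ) ≤ (n : ℝ) ^ δ ∧
      ((ρ i).den : ℝ) ≤ (n : ℝ) ^ δ := fun i =>
    ⟨(h2 i).1, (h2 i).2.1, (h2 i).2.2.1.trans
      (Real.rpow_le_rpow_of_exponent_le hn1 (min_le_left _ _)), (h2 i).2.2.2.trans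
      (Real.rpow_le_rpow_of_exponent_le hn1 (min_le_left _ _))⟩
  have hLalg : ∀ a ∈ L, IsAlgebraic ℚ a := by
    intro a ha
    have h1 : IsAlgebraic ℚ (⟨a, ha⟩ : L) := Algebra.IsAlgebraic.isAlgebraic _
    exact h1.algebraMap (A := ℂ)
  have hrel := fun γ => sq_rel (g := fun l => G (φ l)) (fun l => hG (φ l)) D D₀
    (fun m' γ L hLf hLD P hPD hP mu h hmu hh =>
      hρ ρ h1 h2' m' γ L hLf (hLD.trans (le_max_left _ _)) P (hPD.trans (le_max_right _ _)) hP mu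
        h hmu hh) L hLf hLD γ
  have hleg : ∀ l, ∃ M : Matrix (Ix (G (φ l))) (Ix (G (φ l))) ℂ,
      Simil (2 * Real.pi * Complex.I) M ∧
      ∀ γ : CPath (crv (G (φ l)) (f (φ l)) (ρ l / n)), ∃ K : Ix (G (φ l)) → ℤ, ∀ k,
        γ.per (num (G (φ l)) (crv (G (φ l)) (f (φ l)) (ρ l / n)) k) = ∑ j, M k j * K j := by
    intro l
    refine legendre hX (G (φ l)) (hG (φ l)) (f (φ l)) (ρ l / n) ?_
    refine hsep (φ l) (ρ l / n) ?_
    refine lt_of_lt_of_le ?_ (hε₀' (φ l))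
    have h5 : (0 : ℝ) < (ρ l : ℝ) := by exact_mod_cast (h2 l).1
    push_cast
    rw [abs_of_pos (div_pos h5 hnr)]
    refine lt_of_le_of_lt ?_ hnε
    refine div_le_div_of_nonneg_right ?_ hnr.le
    refine le_trans ?_ (h2 l).2.2.1
    have h6 : (ρ l) ≤ ((ρ l).num : ℚ) := by
      have h7 : (0 : ℚ) ≤ ((ρ l).num : ℚ) := by
        exact_mod_cast (Rat.num_pos.2 (h2 l).1).le
      have h8 : (1 : ℚ) ≤ ((ρ l).den : ℚ) := by exact_mod_cast (ρ l).pos
      calc ρ l = ((ρ l).num : ℚ) / ((ρ l).den : ℚ) := (Rat.num_div_den (ρ l)).symm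
        _ ≤ ((ρ l).num : ℚ) := div_le_self h7 h8
    exact_mod_cast h6
  exact ⟨fun γ hγ H hH x hx => key3 (fun l => G (φ l)) _ D₀ hD₀ hleg L hLalg hrel γ hγ H hH x hx,
    fun m k i α hα => key2 (fun l => G (φ l)) _ D₀ hD₀ hleg L hLalg hrel m k i α hα⟩

end

end Pool.Agent.DRD
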