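import Pool.Agent.DRD.Asm
import Pool.Agent.DRD.Full
import Pool.Agent.UBD.Main

set_option autoImplicit false

/-!
# The final theorem
-/

open scoped BigOperators Topology

namespace Pool.Agent.DRD

open Pool.Agent.HGP (Ix Simil)
open Pool.Agent.DRH (IsHodge)
open Pool.Agent.DG2 (critVals crv)
open Pool.Agent.GPH (CPath)

theorem final (nF : ℕ) (G : Fin nF → ℕ) (f : ∀ a, Fin (2 * G a + 1) → ℚ)
    (hG : ∀ a, 0 < G a) (h0 : ∀ a, (0 : ℂ) ∉ critVals (crv (G a) (f a) 0))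
    (hc : ∀ a, (critVals (crv (G a) (f a) 0)).ncard = 2 * G a)
    (hp : ∀ a b, a ≠ b → ∀ ρ : ℚ, 0 < ρ →
      (fun v => (ρ : ℂ) * v) '' critVals (crv (G a) (f a) 0) ≠ critVals (crv (G b) (f b) 0))
    (r : ℕ) (φ : Fin r → Fin nF) (D : ℕ) : ∃ δ : ℝ, 0 < δ ∧ ∃ n₀ : ℕ, ∀ n : ℕ, n₀ ≤ n →
    ∃ S : Finset ℚ, S.card ≤ r * (1 + ∑ a, G a * (2 * G a + 1)) ∧
    ∀ ρ : Fin r → ℚ, (∀ i j, i ≠ j → φ i = φ j → ρ i ≠ ρ j) →
    (∀ i, 0 < ρ i ∧ ρ i ∉ S ∧ ((ρ i).num : ℝ) ≤ (n : ℝ) ^ δ ∧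
      ((ρ i).den : ℝ) ≤ (n : ℝ) ^ δ) →
    ∀ L : IntermediateField ℚ ℂ, FiniteDimensional ℚ L → Module.finrank ℚ L ≤ D →
    (∀ (γ : ∀ l, Fin (2 * G (φ l)) → CPath (crv (G (φ l)) (f (φ l)) (ρ l / n))),
      IsBasis (g := fun l => G (φ l)) γ → ∀ H : Subgroup (Aut (fun l => G (φ l))),
      IsTorsor (g := fun l => G (φ l)) L γ H →
      ∀ x : Aut (fun l => G (φ l)), (∀ l, Simil (x.1 : ℂ)
        (x.2 l : Matrix (Ix (G (φ l))) (Ix (G (φ l))) ℂ)) → x ∈ H) ∧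
    ∀ (m : ℕ) (k : ℤ) (i : Fin m → Fin r) (α : (∀ s, Ix (G (φ (i s)))) → ℂ),
      IsDRB (g := fun l => G (φ l))
        (fun l => crv (G (φ l)) (f (φ l)) (ρ l / n)) L m k i α →
      IsHodge (g := fun l => G (φ l)) m k i α :=
  main2 finC refX cvP Pool.Agent.UBD.ub nF G f hG h0 hc hp r φ D

end Pool.Agent.DRD
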